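import Pool.Agent.Helper37.OF.M_FN2
import Pool.Agent.Helper3.OF.M_LIN
import Pool.Agent.Helper6.OF.M_CYC
import Pool.Agent.Helper16.OF.M_LEN
import Pool.Agent.Helper19.OF.M_ACT
import Pool.Agent.Helper19.OF.M_E2
import Pool.Agent.Helper32.OF.M_LOC
import Pool.Agent.Helper38.OF.M_STG
import Pool.Agent.Helper40.OF.M_SEC
import Pool.Agent.Helper48.OF.M_WRD
import Pool.Agent.Helper54.OF.M_COR
import Pool.Agent.Helper74.OF.M_ORD
import Pool.Agent.Helper75.OF.M_CPT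
import Pool.Agent.Helper97.OF.M_STR

/-!
# Project OF: assembly
-/

set_option autoImplicit false

namespace Pool.Agent.Helper37.OF

open Monoid Pool.Agent.Helper4.FS

universe u v w x

theorem tLIN : StLIN.{w, x} := Pool.Agent.Helper3.OF.hLIN Pool.Agent.Helper19.OF.hE2
theorem tLOC : StLOC.{w, x} := Pool.Agent.Helper32.OF.hLOC tLIN
theorem tCYC : StCYC.{w, x} := Pool.Agent.Helper6.OF.hCYC Pool.Agent.Helper16.OF.hLEN
theorem tWRD : StWRD.{w, x} := Pool.Agent.Helper48.OF.hWRD tCYC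
theorem tSTR : StSTR.{u, v, w, x} := Pool.Agent.Helper97.OF.hSTR tWRD
theorem tORD : StORD.{w, x} :=
  Pool.Agent.Helper74.OF.hORD Pool.Agent.Helper38.OF.hSTG Pool.Agent.Helper75.OF.hCPT
theorem tCOR : StCOR.{u, v, w, x} :=
  Pool.Agent.Helper54.OF.hCOR tLOC Pool.Agent.Helper40.OF.hSEC Pool.Agent.Helper40.OF.hSEC
    Pool.Agent.Helper19.OF.hACT tSTR tORD

/-- The final theorem. -/
theorem final :
    ∀ (A : Type u) (B : Type v) (Q : Type x) [Group A] [Group B] [Group Q]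
      [LinearOrder Q], (∀ a b c : Q, b < c → a * b < a * c) →
    ∀ (A₀ : Subgroup A) (B₀ : Subgroup B) (l : List (A₀ × B₀)), l ≠ [] → ∀ m : ℕ, 2 ≤ m →
    ∀ (πA : A₀ →* Q) (πB : B₀ →* Q), Coprod.lift πA πB (wd l) = 1 →
    (∀ a : πA.ker, a ≠ 1 → ∃ (k : Type w) (_ : Field k) (f : πA.ker →* P2 k) (g : πB.ker →* P2 k),
      f a ≠ 1 ∧ Gd πA f (l.map Prod.fst) ∧ Gd πB g (l.map Prod.snd)) →
    (B₀ = ⊤ ∨ Coprod.snd (wd l) ^ m = 1 ∨ ∀ b : πB.ker, b ≠ 1 → ∃ (k : Type w) (_ : Field k)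
      (f : πA.ker →* P2 k) (g : πB.ker →* P2 k), g b ≠ 1 ∧ Gd πA f (l.map Prod.fst) ∧
        Gd πB g (l.map Prod.snd)) →
    Function.Injective
      ((QuotientGroup.mk' (Subgroup.normalClosure
          ({Coprod.map A₀.subtype B₀.subtype (wd l) ^ m} : Set (Coprod A B)))).comp
        (Coprod.inl : A →* Coprod A B)) :=
  hFN2 tCOR

end Pool.Agent.Helper37.OF
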