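import Pool.Agent.Helper37.OF.St

/-!
# The final theorem of project OF (with a third alternative for `B₀`)
-/

set_option autoImplicit false

namespace Pool.Agent.Helper37.OF

open Monoid Pool.Agent.Helper4.FS

universe u v w x

theorem hFN2 (hCOR : StCOR.{u, v, w, x}) :
    ∀ (A : Type u) (B : Type v) (Q : Type x) [Group A] [Group B] [Group Q]
      [LinearOrder Q], (∀ a b c : Q, b < c → a * b < a * c) →
    ∀ (A₀ : Subgroup A) (B₀ : Subgroup B) (l : List (A₀ × B₀)), l ≠ [] → ∀ m : ℕ, 2 ≤ m →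
    ∀ (πA : A₀ →* Q) (πB : B₀ →* Q), Coprod.lift πA πB (wd l) = 1 →
    (∀ a : πA.ker, a ≠ 1 → ∃ (k : Type w) (_ : Field k) (f : πA.ker →* P2 k) (g : πB.ker →* P2 k),
      f a ≠ 1 ∧ Gd πA f (l.map Prod.fst) ∧ Gd πB g (l.map Prod.snd)) →
    (B₀ = ⊤ ∨ Coprod.snd (wd l) ^ m = 1 ∨ ∀ b : πB.ker, b ≠ 1 → ∃ (k : Type w) (_ : Field k)
      (f : πA.ker →* P2 k) (g : πB.ker →* P2 k), g b ≠ 1 ∧ Gd πA f (l.map Prod.fst) ∧
        Gd πB g (l.map Prod.snd)) →
    Function.Injective
      ((QuotientGroup.mk' (Subgroup.normalClosure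
          ({Coprod.map A₀.subtype B₀.subtype (wd l) ^ m} : Set (Coprod A B)))).comp
        (Coprod.inl : A →* Coprod A B)) := by
  intro A B Q _ _ _ _ hlt A₀ B₀ l hl m hm πA πB hr hA hB
  have hN : ∀ {W : Type (max x w)} [Group W] (Φ : Coprod A₀ B₀ →* W), Φ (wd l) ^ m = 1 →
      Subgroup.normalClosure ({wd l ^ m} : Set (Coprod A₀ B₀)) ≤ Φ.ker := by
    intro W _ Φ h
    apply Subgroup.normalClosure_le_normal
    rintro _ rfl
    show Φ (wd l ^ m) = 1
    rw [map_pow, h]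
  have hN' : Subgroup.normalClosure ({wd l ^ m} : Set (Coprod A₀ B₀)) ≤
      (Coprod.lift πA πB).ker := by
    apply Subgroup.normalClosure_le_normal
    rintro _ rfl
    show Coprod.lift πA πB (wd l ^ m) = 1
    rw [map_pow, hr, one_pow]
  apply sub_gen
  · apply mk_inl_inj
    intro a ha hmem
    have h1 : πA a = 1 := by
      have := hN' hmem
      rwa [MonoidHom.mem_ker, Coprod.lift_apply_inl] at this
    have ha' : (⟨a, h1⟩ : πA.ker) ≠ 1 := fun h => ha (congrArg Subtype.val h)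
    obtain ⟨k, _, f, g, h2, h3, h4⟩ := hA _ ha'
    obtain ⟨W, _, Φ, c1, -, -, c4, -⟩ := hCOR A₀ B₀ Q hlt k m hm πA πB f g l hl hr h3 h4
    exact c4 _ h2 (hN Φ c1 hmem)
  · rcases hB with hB | hB | hB
    · exact Or.inl hB
    · refine Or.inr ?_
      apply mk_inr_inj
      intro b hb hmem
      have h2 : Subgroup.normalClosure ({wd l ^ m} : Set (Coprod A₀ B₀)) ≤
          (Coprod.snd : Coprod A₀ B₀ →* B₀).ker := by
        apply Subgroup.normalClosure_le_normal
        rintro _ rfl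
        show Coprod.snd (wd l ^ m) = 1
        rw [map_pow, hB]
      have h3 := h2 hmem
      rw [MonoidHom.mem_ker, Coprod.snd_apply_inr] at h3
      exact hb h3
    · refine Or.inr ?_
      apply mk_inr_inj
      intro b hb hmem
      have h1 : πB b = 1 := by
        have := hN' hmem
        rwa [MonoidHom.mem_ker, Coprod.lift_apply_inr] at this
      have hb' : (⟨b, h1⟩ : πB.ker) ≠ 1 := fun h => hb (congrArg Subtype.val h)
      obtain ⟨k, _, f, g, h2, h3, h4⟩ := hB _ hb'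
      obtain ⟨W, _, Φ, c1, -, -, -, c5⟩ := hCOR A₀ B₀ Q hlt k m hm πA πB f g l hl hr h3 h4
      exact c5 _ h2 (hN Φ c1 hmem)

end Pool.Agent.Helper37.OF
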