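import Pool.Agent.Helper37.OF.St2
import Pool.Agent.Helper37.OF.M_FN2

/-!
# The merged final theorem of project OF
-/

set_option autoImplicit false

namespace Pool.Agent.Helper37.OF

open Monoid Pool.Agent.Helper4.FS

universe u v w x

theorem hFN3 (hCOR : StCOR.{u, v, w, x}) (hCR2 : StCR2.{u, v, x}) :
    ∀ (A : Type u) (B : Type v) (Q : Type x) [Group A] [Group B] [Group Q]
      [LinearOrder Q], (∀ a b c : Q, b < c → a * b < a * c) →
    ∀ (A₀ : Subgroup A) (B₀ : Subgroup B) (l : List (A₀ × B₀)), l ≠ [] → ∀ m : ℕ, 2 ≤ m →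
    ∀ (πA : A₀ →* Q) (πB : B₀ →* Q), Coprod.lift πA πB (wd l) = 1 →
    (((∀ a : πA.ker, a ≠ 1 → ∃ (k : Type w) (_ : Field k) (f : πA.ker →* P2 k)
        (g : πB.ker →* P2 k), f a ≠ 1 ∧ Gd πA f (l.map Prod.fst) ∧ Gd πB g (l.map Prod.snd)) ∧
      (B₀ = ⊤ ∨ Coprod.snd (wd l) ^ m = 1 ∨ ∀ b : πB.ker, b ≠ 1 → ∃ (k : Type w) (_ : Field k)
        (f : πA.ker →* P2 k) (g : πB.ker →* P2 k), g b ≠ 1 ∧ Gd πA f (l.map Prod.fst) ∧
          Gd πB g (l.map Prod.snd))) ∨
      ((∀ p ∈ l, p.1 ≠ 1 ∧ p.2 ≠ 1) ∧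
        ∀ q c, Ext (pp' (pts πA πB l)) q c → Simple (pts πA πB l) c)) →
    Function.Injective
      ((QuotientGroup.mk' (Subgroup.normalClosure
          ({Coprod.map A₀.subtype B₀.subtype (wd l) ^ m} : Set (Coprod A B)))).comp
        (Coprod.inl : A →* Coprod A B)) := by
  intro A B Q _ _ _ _ hlt A₀ B₀ l hl m hm πA πB hr h
  rcases h with ⟨hA, hB⟩ | ⟨hne, hs⟩
  · exact hFN2 hCOR A B Q hlt A₀ B₀ l hl m hm πA πB hr hA hB
  · obtain ⟨W, _, Φ, c1, c2, c3⟩ := hCR2 A₀ B₀ Q hlt m hm πA πB l hl hne hr hs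
    have hN : Subgroup.normalClosure ({wd l ^ m} : Set (Coprod A₀ B₀)) ≤ Φ.ker := by
      apply Subgroup.normalClosure_le_normal
      rintro _ rfl
      show Φ (wd l ^ m) = 1
      rw [map_pow, c1]
    apply sub_gen
    · apply mk_inl_inj
      intro a ha hmem
      exact c2 a ha (hN hmem)
    · refine Or.inr ?_
      apply mk_inr_inj
      intro b hb hmem
      exact c3 b hb (hN hmem)

section

variable {A : Type u} {B : Type v} {Q : Type x} [Group A] [Group B] [Group Q]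

/-- The image `w_i` of `a_(i+1) b_(i+1) ... a_n b_n`. -/
def wpt (πA : A →* Q) (πB : B →* Q) (l : List (A × B)) (i : Fin l.length) : Q :=
  Coprod.lift πA πB (wd (l.drop (i + 1)))

/-- The image `v_i` of `b_i a_(i+1) b_(i+1) ... a_n b_n`. -/
def vpt (πA : A →* Q) (πB : B →* Q) (l : List (A × B)) (i : Fin l.length) : Q :=
  πB (l.get i).2 * wpt πA πB l i

theorem pts_eq (πA : A →* Q) (πB : B →* Q) (l : List (A × B)) :
    pts πA πB l = List.ofFn fun i => (vpt πA πB l i, wpt πA πB l i) := by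
  induction l with
  | nil => rfl
  | cons p l ih =>
    rw [pts, ih]
    exact (List.ofFn_succ (f := fun i : Fin (l.length + 1) =>
      (vpt πA πB (p :: l) i, wpt πA πB (p :: l) i))).symm

theorem map_fst_pts (πA : A →* Q) (πB : B →* Q) (l : List (A × B)) :
    (pts πA πB l).map Prod.fst = List.ofFn (vpt πA πB l) := by
  rw [pts_eq, List.map_ofFn]
  rfl

theorem map_snd_pts (πA : A →* Q) (πB : B →* Q) (l : List (A × B)) :
    (pts πA πB l).map Prod.snd = List.ofFn (wpt πA πB l) := by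
  rw [pts_eq, List.map_ofFn]
  rfl

open Classical in
theorem cnt_ofFn {X : Type x} {n : ℕ} (f : Fin n → X) (z : X) (h : ∃! i, f i = z) :
    (List.ofFn f).count z = 1 := by
  obtain ⟨i, hi, hu⟩ := h
  rw [List.ofFn_eq_map, List.count, List.countP_map]
  have h1 : List.countP ((fun y => y == z) ∘ f) (List.finRange n) =
      List.countP (fun j => j == i) (List.finRange n) := by
    apply List.countP_congr
    intro j _
    simp only [Function.comp_apply, beq_iff_eq]
    exact ⟨fun h => hu j h, fun h => by rw [h]; exact hi⟩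
  rw [h1]
  exact List.count_eq_one_of_mem (List.nodup_finRange n) (List.mem_finRange i)

theorem simple_of (πA : A →* Q) (πB : B →* Q) (l : List (A × B)) (z : Q)
    (h : (∀ i, vpt πA πB l i ≠ z) ∨ (∀ i, wpt πA πB l i ≠ z) ∨
      ((∃! i, vpt πA πB l i = z) ∧ ∃! i, wpt πA πB l i = z)) : Simple (pts πA πB l) z := by
  unfold Simple
  rw [map_fst_pts, map_snd_pts]
  rcases h with h | h | ⟨h, h'⟩
  · refine Or.inl fun hm => ?_
    rw [List.mem_ofFn] at hm
    obtain ⟨i, hi⟩ := hm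
    exact h i hi
  · refine Or.inr (Or.inl fun hm => ?_)
    rw [List.mem_ofFn] at hm
    obtain ⟨i, hi⟩ := hm
    exact h i hi
  · exact Or.inr (Or.inr ⟨cnt_ofFn _ _ h, cnt_ofFn _ _ h'⟩)

theorem mem_pp (πA : A →* Q) (πB : B →* Q) (l : List (A × B)) (z : Q) :
    z ∈ pp' (pts πA πB l) ↔ (∃ i, vpt πA πB l i = z) ∨ ∃ i, wpt πA πB l i = z := by
  unfold pp'
  rw [List.mem_append, map_fst_pts, map_snd_pts, List.mem_ofFn, List.mem_ofFn]

end

end Pool.Agent.Helper37.OF
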