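import Pool.Agent.Helper37.OF.All
import Pool.Agent.Helper37.OF.M_FN3
import Pool.Agent.Helper34.OF.M_LVN
import Pool.Agent.Helper36.OF.M_TRG
import Pool.Agent.Helper89.OF.M_LFT
import Pool.Agent.Helper29.OF.M_DEC
import Pool.Agent.Helper60.OF.M_CNT
import Pool.Agent.Helper10.OF.M_OR2
import Pool.Agent.Helper95.OF.M_ST2
import Pool.Agent.Helper99.OF.M_CR2

/-!
# Project OF: assembly of the second part
-/

set_option autoImplicit false

namespace Pool.Agent.Helper37.OF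

open Monoid Pool.Agent.Helper4.FS

universe u v w x

theorem tCNT : StCNT.{w, x} :=
  Pool.Agent.Helper60.OF.hCNT Pool.Agent.Helper34.OF.hLVN Pool.Agent.Helper36.OF.hTRG
    Pool.Agent.Helper89.OF.hLFT Pool.Agent.Helper29.OF.hDEC
theorem tOR2 : StOR2.{w, x} :=
  Pool.Agent.Helper10.OF.hOR2 Pool.Agent.Helper38.OF.hSTG Pool.Agent.Helper75.OF.hCPT
theorem tST2 : StST2.{u, v, w, x} := Pool.Agent.Helper95.OF.hST2 tWRD
theorem tCR2 : StCR2.{u, v, x} :=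
  Pool.Agent.Helper99.OF.hCR2 Pool.Agent.Helper40.OF.hSEC Pool.Agent.Helper40.OF.hSEC
    Pool.Agent.Helper19.OF.hACT tST2 tOR2 tCNT

/-- The final theorem. -/
theorem final2 :
    ∀ (A : Type u) (B : Type v) (Q : Type x) [Group A] [Group B] [Group Q]
      [LinearOrder Q], (∀ a b c : Q, b < c → a * b < a * c) →
    ∀ (A₀ : Subgroup A) (B₀ : Subgroup B) (l : List (A₀ × B₀)), l ≠ [] → ∀ m : ℕ, 2 ≤ m →
    ∀ (πA : A₀ →* Q) (πB : B₀ →* Q), Coprod.lift πA πB (wd l) = 1 →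
    (((∀ a : πA.ker, a ≠ 1 → ∃ (k : Type w) (_ : Field k) (f : πA.ker →* P2 k)
        (g : πB.ker →* P2 k), f a ≠ 1 ∧ Gd πA f (l.map Prod.fst) ∧ Gd πB g (l.map Prod.snd)) ∧
      (B₀ = ⊤ ∨ Coprod.snd (wd l) ^ m = 1 ∨ ∀ b : πB.ker, b ≠ 1 → ∃ (k : Type w) (_ : Field k)
        (f : πA.ker →* P2 k) (g : πB.ker →* P2 k), g b ≠ 1 ∧ Gd πA f (l.map Prod.fst) ∧
          Gd πB g (l.map Prod.snd))) ∨
      ((∀ p ∈ l, p.1 ≠ 1 ∧ p.2 ≠ 1) ∧
        ∀ q z : Q, ((∃ i, vpt πA πB l i = z) ∨ ∃ i, wpt πA πB l i = z) →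
          ((∀ z', ((∃ i, vpt πA πB l i = z') ∨ ∃ i, wpt πA πB l i = z') → z' * q ≤ z * q) ∨
            ∀ z', ((∃ i, vpt πA πB l i = z') ∨ ∃ i, wpt πA πB l i = z') → z * q ≤ z' * q) →
          ((∀ i, vpt πA πB l i ≠ z) ∨ (∀ i, wpt πA πB l i ≠ z) ∨
            ((∃! i, vpt πA πB l i = z) ∧ ∃! i, wpt πA πB l i = z)))) →
    Function.Injective
      ((QuotientGroup.mk' (Subgroup.normalClosure
          ({Coprod.map A₀.subtype B₀.subtype (wd l) ^ m} : Set (Coprod A B)))).comp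
        (Coprod.inl : A →* Coprod A B)) := by
  intro A B Q _ _ _ _ hlt A₀ B₀ l hl m hm πA πB hr h
  refine hFN3 tCOR tCR2 A B Q hlt A₀ B₀ l hl m hm πA πB hr ?_
  rcases h with h | ⟨h, h'⟩
  · exact Or.inl h
  · refine Or.inr ⟨h, fun q c hc => simple_of πA πB l c ?_⟩
    obtain ⟨h1, h2⟩ := hc
    refine h' q c ((mem_pp πA πB l c).1 h1) ?_
    rcases h2 with h2 | h2
    · exact Or.inl fun z' hz' => h2 z' ((mem_pp πA πB l z').2 hz')
    · exact Or.inr fun z' hz' => h2 z' ((mem_pp πA πB l z').2 hz')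

end Pool.Agent.Helper37.OF
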