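import Pool.Agent.Helper4.FS.Fin

/-!
# Project OF (MP_121524_al): definitions and simple facts

`Fp G I`: the free product of copies of the group `G` indexed by `I`; `ret G I Y`: the retraction
which kills the copies outside `Y`; `Sb G I Y`: the subgroup generated by the copies in `Y`, that is
the elements fixed by `ret G I Y`.
-/

set_option autoImplicit false

namespace Pool.Agent.Helper37.OF

open Monoid Pool.Agent.Helper4.FS

universe u v w x y

/-- The free product of copies of `G`. -/
abbrev Fp (G : Type w) [Group G] (I : Type x) : Type (max x w) := CoprodI (fun _ : I => G)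

section

variable (G : Type w) [Group G] (I : Type x)

/-- The element `g` of the copy number `i`. -/
def ofi {G : Type w} [Group G] {I : Type x} (i : I) (g : G) : Fp G I :=
  CoprodI.of (M := fun _ : I => G) (i := i) g

open Classical in
/-- The retraction which kills the copies outside `Y`. -/
noncomputable def ret (Y : Set I) : Fp G I →* Fp G I :=
  CoprodI.lift fun i => if i ∈ Y then CoprodI.of (M := fun _ : I => G) (i := i) else 1

/-- The subgroup generated by the copies in `Y`. -/
noncomputable def Sb (Y : Set I) : Subgroup (Fp G I) :=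
  MonoidHom.eqLocus (ret G I Y) (MonoidHom.id (Fp G I))

end

section

variable {G : Type w} [Group G] {I : Type x}

theorem ofi_mul (i : I) (a b : G) : (ofi i (a * b) : Fp G I) = ofi i a * ofi i b := by
  unfold ofi; rw [map_mul]

theorem ofi_one (i : I) : (ofi i (1 : G) : Fp G I) = 1 := by
  unfold ofi; rw [map_one]

theorem ofi_inv (i : I) (a : G) : (ofi i a⁻¹ : Fp G I) = (ofi i a)⁻¹ := by
  unfold ofi; rw [map_inv]

theorem ofi_inj (i : I) : Function.Injective (ofi (G := G) i) :=
  CoprodI.of_injective (M := fun _ : I => G) i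

/-- Induction. -/
theorem fp_induction {C : Fp G I → Prop} (w : Fp G I) (h1 : C 1) (hof : ∀ i g, C (ofi i g))
    (hmul : ∀ a b, C a → C b → C (a * b)) : C w :=
  CoprodI.induction_on w h1 hof hmul

theorem hom_ext' {M : Type y} [Group M] (φ ψ : Fp G I →* M)
    (h : ∀ i g, φ (ofi i g) = ψ (ofi i g)) (w : Fp G I) : φ w = ψ w := by
  induction w using fp_induction with
  | h1 => rw [map_one, map_one]
  | hof i g => exact h i g
  | hmul a b ha hb => rw [map_mul, map_mul, ha, hb]

theorem ret_of_mem {Y : Set I} {i : I} (hi : i ∈ Y) (g : G) : ret G I Y (ofi i g) = ofi i g := by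
  unfold ret ofi
  rw [CoprodI.lift_of, if_pos hi]

theorem ret_of_notMem {Y : Set I} {i : I} (hi : i ∉ Y) (g : G) : ret G I Y (ofi i g) = 1 := by
  unfold ret ofi
  rw [CoprodI.lift_of, if_neg hi]
  rfl

theorem ret_ret (Y Z : Set I) (w : Fp G I) : ret G I Y (ret G I Z w) = ret G I (Y ∩ Z) w := by
  refine hom_ext' ((ret G I Y).comp (ret G I Z)) (ret G I (Y ∩ Z)) (fun i g => ?_) w
  rw [MonoidHom.comp_apply]
  by_cases hZ : i ∈ Z
  · rw [ret_of_mem hZ]
    by_cases hY : i ∈ Y
    · rw [ret_of_mem hY, ret_of_mem (show i ∈ Y ∩ Z from ⟨hY, hZ⟩)]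
    · rw [ret_of_notMem hY, ret_of_notMem (show i ∉ Y ∩ Z from fun h => hY h.1)]
  · rw [ret_of_notMem hZ, map_one, ret_of_notMem (show i ∉ Y ∩ Z from fun h => hZ h.2)]

theorem mem_Sb {Y : Set I} {w : Fp G I} : w ∈ Sb G I Y ↔ ret G I Y w = w := Iff.rfl

theorem ret_mem (Y : Set I) (w : Fp G I) : ret G I Y w ∈ Sb G I Y := by
  rw [mem_Sb, ret_ret, Set.inter_self]

theorem ofi_mem {Y : Set I} {i : I} (hi : i ∈ Y) (g : G) : (ofi i g : Fp G I) ∈ Sb G I Y :=
  ret_of_mem hi g

theorem Sb_mono {Y Z : Set I} (h : Y ⊆ Z) : Sb G I Y ≤ Sb G I Z := by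
  intro w hw
  rw [mem_Sb] at hw ⊢
  rw [← hw, ret_ret, Set.inter_eq_right.2 h]

theorem hom_eq_on {M : Type y} [Group M] {Y : Set I} (φ ψ : Fp G I →* M)
    (h : ∀ i ∈ Y, ∀ g, φ (ofi i g) = ψ (ofi i g)) {w : Fp G I} (hw : w ∈ Sb G I Y) :
    φ w = ψ w := by
  rw [← mem_Sb.1 hw]
  refine hom_ext' (φ.comp (ret G I Y)) (ψ.comp (ret G I Y)) (fun i g => ?_) w
  rw [MonoidHom.comp_apply, MonoidHom.comp_apply]
  by_cases hi : i ∈ Y
  · rw [ret_of_mem hi, h i hi]
  · rw [ret_of_notMem hi, map_one, map_one]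

theorem exists_finite (w : Fp G I) : ∃ J : Finset I, ∀ Y : Set I, (J : Set I) ⊆ Y → w ∈ Sb G I Y := by
  classical
  induction w using fp_induction with
  | h1 => exact ⟨∅, fun Y _ => (Sb G I Y).one_mem⟩
  | hof i g => exact ⟨{i}, fun Y hY => ofi_mem (hY (by simp)) g⟩
  | hmul a b ha hb =>
    obtain ⟨J, hJ⟩ := ha
    obtain ⟨J', hJ'⟩ := hb
    refine ⟨J ∪ J', fun Y hY => (Sb G I Y).mul_mem (hJ Y ?_) (hJ' Y ?_)⟩
    · exact fun i hi => hY (by simp [Finset.mem_coe.1 hi])
    · exact fun i hi => hY (by simp [Finset.mem_coe.1 hi])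

/-- `R` is not conjugate to an element of the subgroup generated by the copies `i ≠ z`. -/
def NC (R : Fp G I) (z : I) : Prop := ∀ w ∈ Sb G I {i | i ≠ z}, ¬ IsConj R w

/-- The local Freiheitssatz for `R ^ m` at the copy `z`. -/
def LF (R : Fp G I) (m : ℕ) (z : I) : Prop :=
  ∀ w ∈ Sb G I {i | i ≠ z}, w ∈ Subgroup.normalClosure ({R ^ m} : Set (Fp G I)) → w = 1

/-- The product of a list of letters. -/
def lp (L : List (I × G)) : Fp G I := (L.map fun p => ofi p.1 p.2).prod

/-- The element `∏ α e_x β e_y⁻¹` for a list of quadruples `(α, x, β, y)`, where `e_x` is the element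
`τ` of the copy number `x` and `α`, `β` are in the base copy `none`. -/
def Wq {X : Type x} (τ : G) (L : List (G × X × G × X)) : Fp G (Option X) :=
  (L.map fun p => ofi none p.1 * ofi (some p.2.1) τ * ofi none p.2.2.1 *
    (ofi (some p.2.2.2) τ)⁻¹).prod

end

section

variable {A : Type u} {Q : Type x} {G : Type w} [Group A] [Group Q] [Group G]

open Classical in
/-- The cocycle of `A` with values in `G`, for a function `s : Q → A`. -/
noncomputable def cc (π : A →* Q) (f : π.ker →* G) (s : Q → A) (a : A) (q : Q) : G :=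
  if h : (s (π a * q))⁻¹ * a * s q ∈ π.ker then f ⟨_, h⟩ else 1

/-- The condition on `s : Q → A`. -/
def Sec (π : A →* Q) (s : Q → A) : Prop :=
  (∀ a q, π (s (π a * q)) = π a * π (s q)) ∧ ∃ q₀, π (s q₀) = 1

end

section

variable {A : Type u} {B : Type v} {Q : Type x} {G : Type w} [Group A] [Group B] [Group Q] [Group G]

/-- The quadruples of the word `wd l` at the point `q`. -/
noncomputable def bl (πA : A →* Q) (πB : B →* Q) (f : πA.ker →* G) (g : πB.ker →* G) (s : Q → A)
    (s' : Q → B) : List (A × B) → Q → List (G × Q × G × Q)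
  | [], _ => []
  | (p :: l), q =>
    (cc πA f s p.1 (πB p.2 * (Coprod.lift πA πB (wd l) * q)),
      πB p.2 * (Coprod.lift πA πB (wd l) * q),
      cc πB g s' p.2 (Coprod.lift πA πB (wd l) * q),
      Coprod.lift πA πB (wd l) * q) :: bl πA πB f g s s' l q

/-- No conjugate of the elements of the list is killed by `f`. -/
def Gd (π : A →* Q) (f : π.ker →* G) (L : List A) : Prop :=
  ∀ a ∈ L, ∀ (c : A) (h : c⁻¹ * a * c ∈ π.ker), f ⟨c⁻¹ * a * c, h⟩ ≠ 1

end

end Pool.Agent.Helper37.OF
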