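import Pool.Agent.Helper37.OF.Defs

/-!
# Project OF (MP_121524_al): module statements

THEOREM (FIN).  Let `A₀ ≤ A`, `B₀ ≤ B`, `r = a₁ b₁ ... a_k b_k` with nontrivial letters `a_i ∈ A₀`,
`b_i ∈ B₀`, `k ≥ 1`, `m ≥ 2`, `πA : A₀ → Q`, `πB : B₀ → Q` homomorphisms to a left ordered group which
kill `r` (on `A₀ * B₀`).  If the elements of `ker πA` (and of `ker πB`, or `B₀ = B`) are separated by
homomorphisms to `PGL(2,k)`, `k` a field, which kill no conjugate of a letter, then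
`A → (A * B)/⟨⟨r ^ m⟩⟩` is injective.

Basic lemmas are in `Defs.lean` (`ofi`, `ret`, `Sb`, `hom_eq_on`, `Sb_mono`, `exists_finite`, `NC`,
`LF`, `lp`, `Wq`, `cc`, `bl`, `Gd`).  The library of helper4 (`Pool/Agent/Helper4/FS/*.lean`: `P2`,
`pm`, `Ps`, `wd`, `exists_reduced`, `Wr`, `gh_wr`, `inl_notMem`, `sub_gen`) may be used directly.
For each `StX` the module proves `theorem hX : StX` from the listed statements.
-/

set_option autoImplicit false

namespace Pool.Agent.Helper37.OF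

open Monoid Pool.Agent.Helper4.FS

universe u v w x

/-- E2 (about 120 lines).  Free products of groups which are linear of degree two.

Proof.  `D = k[X][X]` (a domain), `L = D[X]`, `k' = FractionRing L`, `ι = C ∘ κ : k → L`,
`κ = C ∘ C : k → D`, `g₀ = mk (cm (C x0) X (C z0))`, `x0 = C X`, `z0 = X ∈ D`, exactly as in
`Pool.Agent.Helper4.FS.main_local` / `main_gen`; `Ψ = (Ps ι g₀).comp (Coprod.map α β)` and
`φ = (pm (algebraMap L k')).comp Ψ` (`pm_inj`).  `Ψ` is injective: let `Ψ w = 1`, `w ≠ 1`.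
If `w` is conjugate to `inl c` then `c ≠ 1` and `pm ι (α c) = 1` (`ps_inl`), contradiction to `pm_inj`;
same for `inr c` (`ps_inr`).  Otherwise `exists_reduced` gives `L₀ ≠ []` with nontrivial letters and
`IsConj w (wd L₀)`; the letters `α p.1`, `β p.2` are nontrivial; lift them to `G2 k`
(`Function.surjInv`, as in `main_gen`): by `ps_word` `mk (nl (L₁.map (cl κ x0 z0))) = 1` up to conjugation,
so the matrix `N = nl ..` is central: `N 0 0 = N 1 1` (`mem_cen`).  But by `bd_nl` and `kl_entries`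
the coefficient of degree `2 * length` of `N 0 0` is a product of nonzero elements of the domain `D`
(`cl_fst`, `cl_snd`, `mem_cen`, and the nonvanishing of `κ a + κ b x0 - κ c x0²` as in `main_gen`,
`coef3`), and that of `N 1 1` is `0`.  `ψ = pm (algebraMap L k') ∘ pm ι`.
Hypotheses: none. -/
def StE2 : Prop := ∀ (k : Type w) [Field k] (A : Type u) (B : Type v) [Group A] [Group B]
  (α : A →* P2 k) (β : B →* P2 k), Function.Injective α → Function.Injective β →
  ∃ (k' : Type w) (_ : Field k') (φ : Coprod A B →* P2 k') (ψ : P2 k →* P2 k'),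
    Function.Injective φ ∧ Function.Injective ψ

/-- LIN (about 90 lines).  Finite free products of copies of `PGL(2,k)` are linear of degree two.

Proof.  Induction on the finite type `I` (`Finite.induction_empty_option`), `k` fixed.  Empty
`I`: `Fp` is trivial (every element is `1` by `fp_induction`), take `k' = k`, `φ = 1`, `ψ = id`.  Invariance
under bijections `e : I ≃ J`: the homomorphism `Fp G J →* Fp G I`, `ofi j g ↦ ofi (e.symm j) g`, is injective
(it has an inverse, `hom_ext'`).  `Option I`: let `φ₀ : Fp (P2 k) I →* P2 k₁`, `ψ₀ : P2 k →* P2 k₁` be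
injective; hE2 for `k₁`, `α = φ₀`, `β = ψ₀`: `χ : Coprod (Fp (P2 k) I) (P2 k) →* P2 k'` injective.
`θ : Fp (P2 k) (Option I) →* Coprod (Fp (P2 k) I) (P2 k)`, `ofi none g ↦ inr g`,
`ofi (some i) g ↦ inl (ofi i g)`, has a left inverse.  `φ = χ ∘ θ`, `ψ = χ ∘ inr`
(`Coprod.inr_injective`).
Hypotheses: hE2. -/
def StLIN : Prop := ∀ (k : Type w) [Field k] (I : Type x) [Finite I],
  ∃ (k' : Type w) (_ : Field k') (φ : Fp (P2 k) I →* P2 k') (ψ : P2 k →* P2 k'),
    Function.Injective φ ∧ Function.Injective ψ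

/-- LOC (about 130 lines).  The local Freiheitssatz.

Proof.  Let `w ∈ Sb {≠ z}`, `w ∈ N(R ^ m)`.  `exists_finite` for `R`, `w`: a finite set `J ∋ z` with
`R, w ∈ Sb J`.  `J' := {i // i ∈ J ∧ i ≠ z}` (finite), `A' := Fp (P2 k) J'`.
`θ : Fp (P2 k) I →* Coprod A' (P2 k)`: `ofi z g ↦ inr g`, `ofi i g ↦ inl (ofi i g)` for
`i ∈ J`, `i ≠ z`, `ofi i g ↦ 1` for `i ∉ J`; `θ' : Coprod A' (P2 k) →* Fp (P2 k) I` the obvious map;
`θ' (θ y) = ret J y` (hom_ext'), so `= y` for `y ∈ Sb J`; `θ' (inl c) ∈ Sb {≠ z}`; `θ w = inl c` for some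
`c` (`w = ret {≠ z} w`; the composition `θ ∘ ret {≠ z}` has values in the range of `inl`).  Let
`r₀ = θ R`.  `θ w ∈ N(r₀ ^ m)` (image of the normal closure:
`Subgroup.map_normalClosure`-type, or: the kernel of `mk' (N(r₀ ^ m)) ∘ θ` is normal and contains
`R ^ m`).  (a) `r₀` is not conjugate to `inl c'`: else `R = θ' r₀` is conjugate to
`θ' (inl c') ∈ Sb {≠ z}`, against `NC R z`.  (b) if `r₀` is conjugate to `inr c'` then `Coprod.fst`
kills `r₀ ^ m`, so `c = fst (θ w) = 1`.  (c) otherwise hLIN for `J'`: `φ : A' →* P2 k'`,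
`ψ : P2 k →* P2 k'` injective; `k'` is a local ring; `rd k'` is injective (`pm_inj`, the residue map of
a field is injective); `gh_wr` with `Or.inr` gives `Wr`; `inl_notMem k' φ ψ r₀ _ hm (_ : φ c ≠ 1)` if
`c ≠ 1`: contradiction.  So `c = 1` and `w = θ' (θ w) = 1`.
Hypotheses: hLIN. -/
def StLOC : Prop := ∀ (k : Type w) [Field k] (I : Type x) (R : Fp (P2 k) I) (z : I) (m : ℕ),
  2 ≤ m → NC R z → LF R m z

/-- STG (about 120 lines).  Staggered relators.

Proof.  Induction on `n`.  `n = 0`: `φ = id`.  `n + 1`: the induction hypothesis for the relators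
`R (j.succ)` gives `φ' : Fp → M'`, injective on `Sb {i | ∀ y, i = some y → ∀ j, y < hi j.succ}`; let
`φ₁ = mk' (N(R 0 ^ m)) : Fp → N₁`.  `Z = {i | ∀ y, i = some y → y ≤ hi 0}`,
`Y = {i | ∀ y, i = some y → lo 0 < y}`, `C = Sb (Y ∩ Z)`.  `φ'` is injective on `C` (`y ≤ hi 0 < hi j.succ`),
`φ₁` is injective on `C ≤ Sb {i | i ≠ some (lo 0)}` by `LF (R 0) m (some (lo 0))`.
`Pool.Agent.Helper88.P3.exists_amalgam` for `φ'.comp C.subtype`, `φ₁.comp C.subtype`: a group `P`, injective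
`i' : M' → P`, `j' : N₁ → P`, `i' (φ' c) = j' (φ₁ c)` for `c ∈ C`.  Define `φ : Fp → P` by
`ofi i g ↦ j' (φ₁ (ofi i g))` if `i ∈ Z`, `i' (φ' (ofi i g))` otherwise.  Then `φ = j' ∘ φ₁` on `Sb Z`, and
`φ = i' ∘ φ'` on `Sb Y` (hom_eq_on; for `i ∈ Y ∩ Z`, `ofi i g ∈ C`).  `R 0 ∈ Sb Z`, `R j.succ ∈ Sb Y`
(`lo 0 < lo j.succ`), so all `φ (R j) ^ m = 1`.  If `w ∈ Sb {i | ∀ y, i = some y → ∀ j, y < hi j}` and
`φ w = 1`: `w ∈ Sb Z`, so `φ₁ w = 1`, and `w ∈ Sb {i | i ≠ some (hi 0)}`, so `w = 1` by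
`LF (R 0) m (some (hi 0))`.  (All groups are in `Type (max x w)`.)
Hypotheses: none. -/
def StSTG : Prop := ∀ (G : Type w) [Group G] (X : Type x) [LinearOrder X] (m n : ℕ)
  (R : Fin n → Fp G (Option X)) (lo hi : Fin n → X), StrictMono lo → StrictMono hi →
  (∀ j, lo j ≤ hi j) →
  (∀ j, R j ∈ Sb G (Option X) {i | ∀ y, i = some y → lo j ≤ y ∧ y ≤ hi j}) →
  (∀ j, LF (R j) m (some (lo j)) ∧ LF (R j) m (some (hi j))) →
  ∃ (M : Type (max x w)) (_ : Group M) (φ : Fp G (Option X) →* M), (∀ j, φ (R j) ^ m = 1) ∧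
    ∀ w' ∈ Sb G (Option X) {i | ∀ y, i = some y → ∀ j, y < hi j}, φ w' = 1 → w' = 1

/-- CPT (about 30 lines).  Compactness.

Proof.  The set of `h` which are in `normalClosure (T '' E)` for some finite `E` is a subgroup
(`E ∪ E'`, `Subgroup.normalClosure_mono`), normal, and contains `range T`
(`Subgroup.normalClosure_le_normal`).  Hypotheses: none. -/
def StCPT : Prop := ∀ (H : Type u) [Group H] (Q : Type x) (T : Q → H) (h : H),
  h ∈ Subgroup.normalClosure (Set.range T) →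
  ∃ E : Finset Q, h ∈ Subgroup.normalClosure (T '' (E : Set Q))

/-- LEN (about 90 lines).  The length in a free product.

Proof.  With classical decidable equality, `ℓ w := (CoprodI.Word.equiv w).toList.length`
(`Monoid.CoprodI.Word`).  The last property: the list is a reduced word with product `lp L`
(`CoprodI.Word.prod`, `Word.equiv`).  `ℓ (ofi i g * w) ≤ ℓ w + 1`: the action of a letter on a word
(`Word.equivPair`, `rcons`, `Word.smul_def`..) changes the length by at most one; then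
`ℓ (a * b) ≤ ℓ a + ℓ b` by writing `a` as the product of its reduced word.  (Alternative: define `ℓ w`
as the least length of a list `L` of letters with `lp L = w`; subadditivity is then trivial, and the last
property says that a reduced word is shortest: any list of letters can be shortened to a reduced
one without changing the product (merge neighbours with the same index, drop trivial letters), and
reduced words are unique (`Word.prod` injective).)  Hypotheses: none. -/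
def StLEN : Prop := ∀ (G : Type w) [Group G] (I : Type x), ∃ ℓ : Fp G I → ℕ,
  (∀ a b, ℓ (a * b) ≤ ℓ a + ℓ b) ∧ (∀ i g, ℓ (ofi i g) ≤ 1) ∧ ℓ 1 = 0 ∧
  ∀ L : List (I × G), (∀ p ∈ L, p.2 ≠ 1) → L.IsChain (fun p q => p.1 ≠ q.1) → ℓ (lp L) = L.length

/-- CYC (about 100 lines).  Cyclically reduced words.

Proof.  Let `W = lp L`, `z = p.1`, `v ∈ Sb {≠ z}`, `IsConj W v`, `v = c W c⁻¹`, `ρ = ret {≠ z}`.
`v = ρ v = ρ c * ρ W * (ρ c)⁻¹`, so `W = d * ρ W * d⁻¹` with `d = c⁻¹ * ρ c`, `W ^ N = d * (ρ W) ^ N * d⁻¹`.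
`ρ W = lp (L.filter (fun q => q.1 ≠ z))` has length at most `L.length - 1`; so
`ℓ (W ^ N) ≤ ℓ d + ℓ d⁻¹ + N (L.length - 1)`.  But `W ^ N = lp (L ++ ... ++ L)` (`N` times,
`(List.replicate N L).flatten`), which is reduced because the last index of `L` differs from the
first, so `ℓ (W ^ N) = N L.length`: contradiction for `N = ℓ d + ℓ d⁻¹ + 1`.
Hypotheses: hLEN. -/
def StCYC : Prop := ∀ (G : Type w) [Group G] (I : Type x) (L : List (I × G)) (hL : L ≠ []),
  (∀ p ∈ L, p.2 ≠ 1) → L.IsChain (fun p q => p.1 ≠ q.1) → (L.getLast hL).1 ≠ (L.head hL).1 →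
  ∀ p ∈ L, NC (lp L) p.1

/-- WRD (about 110 lines).  The words of quadruples are cyclically reduced.

Proof.  Replace the quadruple `(α, x, β, y)` by the list of letters `(none, α)` (omitted if
`α = 1`), `(some x, τ)`, `(none, β)` (omitted if `β = 1`), `(some y, τ⁻¹)`; let `Λ` be the concatenation
(`List.flatMap`), `lp Λ = Wq τ L`.  It is reduced: inside a quadruple because `x ≠ y` or `β ≠ 1`,
between neighbours because `y ≠ x'` or `α' ≠ 1`; the last index is `some y` of the last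
quadruple, the first is `none` or `some x` of the first one (and then `α = 1`, so `x ≠ y`).  Induction
on `L` with the statement: `Λ` is a chain, nonempty, and its first letter is `(none, α)`, `α ≠ 1`, or
`α = 1` and the first letter is `(some x, τ)`.  Apply hCYC.
Hypotheses: hCYC. -/
def StWRD : Prop := ∀ (G : Type w) [Group G] (X : Type x) (τ : G) (L : List (G × X × G × X))
  (hL : L ≠ []), τ ≠ 1 → (∀ p ∈ L, p.2.1 = p.2.2.2 → p.2.2.1 ≠ 1) →
  L.IsChain (fun p q => p.2.2.2 = q.2.1 → q.1 ≠ 1) →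
  ((L.getLast hL).2.2.2 = (L.head hL).2.1 → (L.head hL).1 ≠ 1) →
  ∀ p ∈ L, NC (Wq τ L) (some p.2.1) ∧ NC (Wq τ L) (some p.2.2.2)

/-- SEC (about 40 lines).  Sections.

Proof.  `τ q` = chosen representative of the class of `q` modulo left multiplication by the
subgroup `π.range` (`QuotientGroup.rightRel π.range`, `Quotient.out`); `q * (τ q)⁻¹ ∈ π.range`, choose
`s q` with `π (s q) = q * (τ q)⁻¹`.  `τ (π a * q) = τ q`.  `q₀ = τ 1`: `τ q₀ = q₀`.
Hypotheses: none. -/
def StSEC : Prop := ∀ (A : Type u) (Q : Type x) [Group A] [Group Q] (π : A →* Q),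
  ∃ s : Q → A, Sec π s

/-- ACT (about 130 lines).  The wreath product action.

Proof.  `cc` is a cocycle: for `s` with `Sec π s` the element `(s (π a * q))⁻¹ * a * s q` is in the kernel,
and `cc (a * b) q = cc a (π b * q) * cc b q` (`f` is a homomorphism on the kernel).  For a
cocycle `c : A → Q → M` (that is `c (a * b) q = c a (π b * q) * c b q`) the maps
`(y, q) ↦ (c a q * y, π a * q)` form a homomorphism `A →* Function.End (M × Q)`, hence
(`MonoidHom.toHomPerm`) `A →* Equiv.Perm (M × Q)`.  For `A`: `c a q = jj (ofi none (cc ..))`; for `B`: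
`c b q = jj (ofi (some (πB b * q)) τ * ofi none (cc ..) * (ofi (some q) τ)⁻¹)`, again a cocycle.
`Φ = Coprod.lift`.  The formula for `wd l` by induction on `l` (`wd_cons`, `Wq`, `bl`).
Hypotheses: none. -/
def StACT : Prop := ∀ (A : Type u) (B : Type v) (Q : Type x) (G : Type w) [Group A] [Group B]
  [Group Q] [Group G] (M : Type (max x w)) [Group M] (πA : A →* Q) (πB : B →* Q)
  (f : πA.ker →* G) (g : πB.ker →* G) (s : Q → A) (s' : Q → B), Sec πA s → Sec πB s' →
  ∀ (τ : G) (jj : Fp G (Option Q) →* M), ∃ Φ : Coprod A B →* Equiv.Perm (M × Q),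
    (∀ a y q, Φ (Coprod.inl a) (y, q) = (jj (ofi none (cc πA f s a q)) * y, πA a * q)) ∧
    (∀ b y q, Φ (Coprod.inr b) (y, q) =
      (jj (ofi (some (πB b * q)) τ * ofi none (cc πB g s' b q) * (ofi (some q) τ)⁻¹) * y,
        πB b * q)) ∧
    ∀ l y q, Φ (wd l) (y, q) =
      (jj (Wq τ (bl πA πB f g s s' l q)) * y, Coprod.lift πA πB (wd l) * q)

/-- STR (about 150 lines).  The relators.

Proof.  By induction on `l` the second and fourth components of the quadruples of `bl .. l q` are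
`c * q` with `c` in a finite list `S` of elements of `Q` which does not depend on `q` (the components
for `q = 1`); `Wq τ (bl ..) ∈ Sb {none} ∪ ..` is clear.  The conditions of hWRD hold.  Write
`q₁ = π (wd l') * q`, `x = πB b * q₁` for a pair `(a, b)` followed by `l'`, `(α, x, β, y)` its quadruple,
`y = q₁`.  If `x = y` then `πB b = 1`, `β = cc πB g s' b q₁ = g ((s' q₁)⁻¹ * b * s' q₁) ≠ 1` by
`Gd`.  If `(a', b')` is the next pair, `(α', x', β', y')` its quadruple: `y = πA a' * x'`; if `y = x'` then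
`πA a' = 1` and `α' = f ((s x')⁻¹ * a' * s x') ≠ 1`.  Last and first: the last `y` is `q`, and
`πA a₁ * x₁ = π (wd l) * q = q`.
Hypotheses: hWRD. -/
def StSTR : Prop := ∀ (A : Type u) (B : Type v) (Q : Type x) (G : Type w) [Group A] [Group B]
  [Group Q] [Group G] (πA : A →* Q) (πB : B →* Q)
  (f : πA.ker →* G) (g : πB.ker →* G) (s : Q → A) (s' : Q → B), Sec πA s → Sec πB s' →
  ∀ (τ : G), τ ≠ 1 → ∀ l : List (A × B), l ≠ [] → Coprod.lift πA πB (wd l) = 1 →
  Gd πA f (l.map Prod.fst) → Gd πB g (l.map Prod.snd) →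
  ∃ S : Finset Q, S.Nonempty ∧ ∀ q,
    Wq τ (bl πA πB f g s s' l q) ∈ Sb G (Option Q) {i | ∀ y, i = some y → ∃ c ∈ S, y = c * q} ∧
    ∀ c ∈ S, NC (Wq τ (bl πA πB f g s s' l q)) (some (c * q))

/-- ORD (about 110 lines).  The order.

Proof.  `x ∈ normalClosure (range (R · ^ m))` gives by hCPT a finite `E ⊆ Q`; `E = {q_0 < ... < q_(n-1)}`
(`Finset.orderEmbOfFin`), `lo j = min (S q_j)`, `hi j = max (S q_j)` (`(S.image (· * q_j)).min'`).
For `q < q'`: `c * q < c * q'` for all `c ∈ S`, so `lo`, `hi` are strictly monotone.  `lo j = c * q_j` for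
some `c ∈ S`, so `LF` holds there.  hSTG gives `φ` with `φ (R q_j) ^ m = 1`, so `φ` kills the normal
closure of `{R q ^ m | q ∈ E}`; `ofi none g ∈ Sb {i | ..}` (the condition is empty for `none`), so
`ofi none g = 1`, `g = 1` (`ofi_inj`).
Hypotheses: hSTG hCPT. -/
def StORD : Prop := ∀ (Q : Type x) [Group Q] [LinearOrder Q], (∀ a b c : Q, b < c → a * b < a * c) →
  ∀ (G : Type w) [Group G] (m : ℕ) (S : Finset Q) (R : Q → Fp G (Option Q)), S.Nonempty →
  (∀ q, R q ∈ Sb G (Option Q) {i | ∀ y, i = some y → ∃ c ∈ S, y = c * q}) →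
  (∀ q, ∀ c ∈ S, LF (R q) m (some (c * q))) → ∀ g : G,
  (ofi none g : Fp G (Option Q)) ∈ Subgroup.normalClosure (Set.range fun q => R q ^ m) → g = 1

/-- COR (about 100 lines).  The core of the theorem.

Proof.  `G = P2 k` is not trivial: take any `τ ≠ 1` (e.g. the class of the unipotent matrix `uu 1`,
`mem_cen`).  hSEC: `s`, `s'`; hSTR: `S`; hLOC: `LF`; hORD: with `N = normalClosure (range (R · ^ m))`,
`R q = Wq τ (bl .. l q)`, `M = Fp ⧸ N`, `jj = mk' N`: `jj (ofi none g) = 1` implies `g = 1`.  hACT: `Φ`.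
`Φ (wd l) (y, q) = (jj (R q) * y, q)`, so `Φ (wd l) ^ m = 1`.  If `πA a ≠ 1` then `Φ (inl a)` moves the
second coordinate.  If `a ∈ ker` and `f a ≠ 1`: at `q₀` with `π (s q₀) = 1`, `Φ (inl a) (1, q₀) =
(jj (ofi none (f ((s q₀)⁻¹ * a * s q₀))), q₀)` (`πA a = 1`), and `f (..) = (f s₀)⁻¹ * f a * f s₀ ≠ 1`.  Same for
`b` (the element `e * ofi none (..) * e⁻¹`).
Hypotheses: hLOC hSEC hACT hSTR hORD. -/
def StCOR : Prop := ∀ (A : Type u) (B : Type v) (Q : Type x) [Group A] [Group B] [Group Q]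
  [LinearOrder Q], (∀ a b c : Q, b < c → a * b < a * c) → ∀ (k : Type w) [Field k] (m : ℕ), 2 ≤ m →
  ∀ (πA : A →* Q) (πB : B →* Q) (f : πA.ker →* P2 k) (g : πB.ker →* P2 k) (l : List (A × B)),
  l ≠ [] → Coprod.lift πA πB (wd l) = 1 → Gd πA f (l.map Prod.fst) → Gd πB g (l.map Prod.snd) →
  ∃ (W : Type (max x w)) (_ : Group W) (Φ : Coprod A B →* W), Φ (wd l) ^ m = 1 ∧
    (∀ a, πA a ≠ 1 → Φ (Coprod.inl a) ≠ 1) ∧ (∀ b, πB b ≠ 1 → Φ (Coprod.inr b) ≠ 1) ∧
    (∀ a : πA.ker, f a ≠ 1 → Φ (Coprod.inl (a : A)) ≠ 1) ∧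
    ∀ b : πB.ker, g b ≠ 1 → Φ (Coprod.inr (b : B)) ≠ 1

/-- FIN (about 80 lines).  The theorem.

Proof.  hCOR for `A₀`, `B₀` and `Pool.Agent.Helper4.FS.sub_gen` (with `r = wd l`), `mk_inl_inj`,
`mk_inr_inj`: an element `inl a ∈ N(r ^ m)` is killed by `Φ`.  If `πA a ≠ 1`, apply `Coprod.lift πA πB`
directly (`r` is killed).  If `a ∈ ker`, `a ≠ 1`: the hypothesis gives `k`, `f`, `g` with `f a ≠ 1`.
Hypotheses: hCOR. -/
def StFIN : Prop := ∀ (A : Type u) (B : Type v) (Q : Type x) [Group A] [Group B] [Group Q]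
  [LinearOrder Q], (∀ a b c : Q, b < c → a * b < a * c) →
  ∀ (A₀ : Subgroup A) (B₀ : Subgroup B) (l : List (A₀ × B₀)), l ≠ [] → ∀ m : ℕ, 2 ≤ m →
  ∀ (πA : A₀ →* Q) (πB : B₀ →* Q), Coprod.lift πA πB (wd l) = 1 →
  (∀ a : πA.ker, a ≠ 1 → ∃ (k : Type w) (_ : Field k) (f : πA.ker →* P2 k) (g : πB.ker →* P2 k),
    f a ≠ 1 ∧ Gd πA f (l.map Prod.fst) ∧ Gd πB g (l.map Prod.snd)) →
  (B₀ = ⊤ ∨ ∀ b : πB.ker, b ≠ 1 → ∃ (k : Type w) (_ : Field k) (f : πA.ker →* P2 k)
    (g : πB.ker →* P2 k), g b ≠ 1 ∧ Gd πA f (l.map Prod.fst) ∧ Gd πB g (l.map Prod.snd)) →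
  Function.Injective
    ((QuotientGroup.mk' (Subgroup.normalClosure
        ({Coprod.map A₀.subtype B₀.subtype (wd l) ^ m} : Set (Coprod A B)))).comp
      (Coprod.inl : A →* Coprod A B))

end Pool.Agent.Helper37.OF
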