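import Pool.Agent.Helper37.OF.St

/-!
# Project OF (MP_121524_al), part 2: arbitrary kernels, simple extremal points

The path of `r = a₁ b₁ ... a_n b_n` in the left ordered group `Q`: `pts l` is the list of the pairs
`(v_i, w_i)`, `w_i = π (a_(i+1) b_(i+1) ... a_n b_n)`, `v_i = π b_i * w_i` (so the letter `b_i` leads from
`w_i` to `v_i` and `a_i` from `v_i` to `w_(i-1)`).  A point `z` is simple if it is not among the `v_i`, or
not among the `w_i`, or is exactly once a `v_i` and exactly once a `w_i`.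

THEOREM (part 2).  For arbitrary groups `A`, `B`, `m ≥ 2`, `r` with nontrivial letters and `π r = 1`: if for
every `q ∈ Q` the point `c` with `c q` largest, and the one with `c q` smallest, is simple, then the
Freiheitssatz holds for `r ^ m`.  (In the bi-ordered case: the largest and the smallest point.)

Local step: `(u₁ e u₂ e ... u_k e) ^ m` (Levin), `(u e v e⁻¹) ^ m` (triangle groups, HNN extensions).
-/

set_option autoImplicit false

namespace Pool.Agent.Helper37.OF

open Monoid Pool.Agent.Helper4.FS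

universe u v w x

section

variable {A : Type u} {B : Type v} {Q : Type x} [Group A] [Group B] [Group Q]

/-- The points of the path of `wd l`. -/
noncomputable def pts (πA : A →* Q) (πB : B →* Q) : List (A × B) → List (Q × Q)
  | [] => []
  | (p :: l) => (πB p.2 * Coprod.lift πA πB (wd l), Coprod.lift πA πB (wd l)) :: pts πA πB l

open Classical in
/-- Simple points. -/
def Simple {X : Type x} (L : List (X × X)) (z : X) : Prop :=
  z ∉ L.map Prod.fst ∨ z ∉ L.map Prod.snd ∨
    ((L.map Prod.fst).count z = 1 ∧ (L.map Prod.snd).count z = 1)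

/-- All points of the path. -/
noncomputable def pp' {X : Type x} (L : List (X × X)) : List X := L.map Prod.fst ++ L.map Prod.snd

/-- `c` is an extremal point of the translate by `q`. -/
def Ext [LinearOrder Q] (L : List Q) (q c : Q) : Prop :=
  c ∈ L ∧ ((∀ c' ∈ L, c' * q ≤ c * q) ∨ (∀ c' ∈ L, c * q ≤ c' * q))

end

/-- LVN (about 100 lines).  Levin's theorem: equations with positive exponents.

Proof.  Let `n = L.length ≥ 1`, `u : ℤ → H` the function of period `n` with `L = [u 1, ..., u n]`; it factors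
through `ZMod n`.  `T = Equiv.Perm (H × ZMod n)`, `j h (y, i) = (h * y, i)`, `t (y, i) = ((u i)⁻¹ * y, i + 1)`.
The product `j (u 1) t j (u 2) t ... j (u n) t` maps `(y, i)` to `(∏_(k=1)^n (u k * (u (i + n - k))⁻¹) * y, i)`
(`k` increasing from left to right).  So the claim is: for every integer `s` the product
`∏_(k=1)^n u k * (u (s - k))⁻¹` is `1`.  (a) For `s = a + b`, `a ≤ b + 1`, the product over `a ≤ k ≤ b` is `1` by
induction on `b - a`: the first factor is `u a * (u b)⁻¹`, the last one `u b * (u a)⁻¹`, the middle is `1`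
(true for any function `u`).  (b) The factors are periodic in `k`, so the product over any `n` consecutive
`k` is conjugate to the one over `1 ≤ k ≤ n`; it is enough to find one interval of length `n` with
product `1`.  If `s + 1 - n` is even take `a = (s + 1 - n)/2`, `b = s - a` (length `n`).  If `s + 1` is even,
replace `s` by `s + n` (periodicity) and do the same.  The remaining case is `n` and `s` even:
`a = (s - n)/2`, `b = a + n`: the product of these `n + 1` factors is `1` and the last factor is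
`u b * (u a)⁻¹ = 1`.  (Other proofs are welcome.)  Hypotheses: none. -/
def StLVN : Prop := ∀ (H : Type u) [Group H] (L : List H), L ≠ [] →
  ∃ (T : Type u) (_ : Group T) (j : H →* T) (t : T), Function.Injective j ∧
    (L.map fun y => j y * t).prod = 1

/-- TRG (about 120 lines).  Triangle groups.

Proof.  `U = Subgroup.zpowers a`, `V = Subgroup.zpowers b` (cyclic, nontrivial) embed in
`PGL(2, ℂ)`: a generator goes to the class of `diag(ζ, 1)`, `ζ` a primitive root of unity of the order of
the generator if it is finite, `ζ = 2` otherwise.  `r = inl a * inr b : Coprod U V`, `r = wd [(a, b)]`;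
`Pool.Agent.Helper4.FS.inl_notMem ℂ α β r (Wr ..) hm` and `inr_notMem` (`gh_wr` or `Wr` directly from the
word `[(α a, β b)]`, `rd ℂ` is injective): in `Δ = Coprod U V ⧸ N(r ^ m)` the groups `U`, `V` embed.  Amalgam
(`Pool.Agent.Helper88.P3.exists_amalgam` for `U → H`, `U → Δ`): `T₁ ⊇ H, Δ`, the images of `a` agree.  In
`T₁` let `y` be the image of `b ∈ V` in `Δ` and `b'` the image of `b ∈ H`; the subgroups generated by
`b'` and by `y` are both isomorphic to `V` by isomorphisms sending the generators to each other: HNN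
extension (`HNNExtension`, `HNNExtension.of_injective`): `t * b' * t⁻¹ = y`.  So `(a t b' t⁻¹) ^ m = (a y) ^ m = 1`.
(All groups are in `Type u`; `ℂ : Type`.)  Hypotheses: none. -/
def StTRG : Prop := ∀ (H : Type u) [Group H] (a b : H), a ≠ 1 → b ≠ 1 → ∀ m : ℕ, 2 ≤ m →
  ∃ (T : Type u) (_ : Group T) (j : H →* T) (t : T), Function.Injective j ∧
    (j a * t * j b * t⁻¹) ^ m = 1

/-- LFT (about 50 lines).  Extension of homomorphisms.

Proof.  `D = Sb {≠ z}`.  `φ = CoprodI.lift (fun i => if h : i = z then δ else j ∘ (g ↦ ⟨ofi i g, _⟩))` with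
`δ τ = t` (after rewriting `i = z`).  For `y ∈ D`: `ρ : Fp G I →* D`, `ρ y = ⟨ret {≠ z} y, _⟩`; the
homomorphisms `j.comp ρ` and `φ.comp (ret {≠ z})` agree on all `ofi i g` (`hom_ext'`), and `ρ y = y`,
`ret y = y`.  Hypotheses: none. -/
def StLFT : Prop := ∀ (G : Type w) [Group G] (I : Type x) (τ : G) (z : I) (T : Type (max x w))
  [Group T] (j : Sb G I {i | i ≠ z} →* T) (t : T), (∃ δ : G →* T, δ τ = t) →
  ∃ φ : Fp G I →* T, (∀ y : Sb G I {i | i ≠ z}, φ y = j y) ∧ φ (ofi z τ) = t

open Classical in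
/-- DEC (about 80 lines).  Decomposition of the words of quadruples.

Proof.  Induction on `L`.  The quadruple `(α, x, β, y)` contributes `ofi none α` (in `Sb {≠ some z}`), then
`e = ofi (some z) τ` if `x = z` and an element of `Sb {≠ some z}` otherwise, `ofi none β`, and `e⁻¹` if `y = z`,
an element of `Sb {≠ some z}` otherwise.  Multiply the element into the first entry of the list of the
induction hypothesis (or into `y'`).  Hypotheses: none. -/
def StDEC : Prop := ∀ (G : Type w) [Group G] (X : Type x) (τ : G) (z : X)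
  (L : List (G × X × G × X)), ∃ (U : List (Fp G (Option X) × Bool)) (y' : Fp G (Option X)),
  (∀ p ∈ U, p.1 ∈ Sb G (Option X) {i | i ≠ some z}) ∧ y' ∈ Sb G (Option X) {i | i ≠ some z} ∧
  Wq τ L = (U.map fun p => p.1 * (if p.2 = true then ofi (some z) τ else (ofi (some z) τ)⁻¹)).prod
    * y' ∧
  (U.map Prod.snd).count true = (L.map fun p => p.2.1).count z ∧
  (U.map Prod.snd).count false = (L.map fun p => p.2.2.2).count z

/-- CNT (about 130 lines).  The local Freiheitssatz at a simple point.

Proof.  hDEC: `R = Wq τ L = (∏ u_i e^(ε_i)) * y'`.  Let `D = Sb {≠ some z}`.  It is enough to find (hLFT) a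
homomorphism `φ : Fp → T`, injective on `D`, with `φ R ^ m = 1`: if `w' ∈ D` is in `N(R ^ m)` then
`φ w' = 1`.  (Simple, first case) no `ε_i = true`: if `U = []` then `R = y' ∈ D`, against `NC`.  Otherwise hLVN
for `H = D` and the list `[y' u_1, u_2, ..., u_n]`: `j`, `t` with `∏ j(..) t = 1`; hLFT with `t⁻¹` for `τ`
(`φ e = t⁻¹`, `φ e⁻¹ = t`): `φ (y' R y'⁻¹) = 1`, so `φ R = 1`.  Second case, no `ε_i = false`: the same with
`φ e = t`.  Third case: `U = [(u₁, ε), (u₂, !ε)]` (a list of Booleans with exactly one `true` and one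
`false`), `y' R y'⁻¹ = (y' u₁) e^ε u₂ e^(-ε)`.  `u₂ ≠ 1` and `y' u₁ ≠ 1`: otherwise `R` is conjugate to an
element of `D`, against `NC`.  hTRG for `H = D`, `a = y' u₁`, `b = u₂`: `(j a t j b t⁻¹) ^ m = 1`; hLFT with
`φ e = t` if `ε = true`, `φ e = t⁻¹` otherwise.  (`FF` gives the homomorphism `δ`.)
Hypotheses: hLVN hTRG hLFT hDEC. -/
def StCNT : Prop := ∀ (G : Type w) [Group G] (X : Type x) (τ : G) (z : X)
  (L : List (G × X × G × X)) (m : ℕ), 2 ≤ m →
  (∀ (T : Type (max x w)) [Group T] (t : T), ∃ δ : G →* T, δ τ = t) →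
  NC (Wq τ L) (some z) → Simple (L.map fun p => (p.2.1, p.2.2.2)) z → LF (Wq τ L) m (some z)

/-- OR2 (about 110 lines).  As ORD, with `LF` only at the extremal points.

Proof.  Copy `Pool/Agent/Helper74/OF/M_ORD.lean`: `lo j` is the smallest, `hi j` the largest of the `c * q_j`.
Hypotheses: hSTG hCPT. -/
def StOR2 : Prop := ∀ (Q : Type x) [Group Q] [LinearOrder Q], (∀ a b c : Q, b < c → a * b < a * c) →
  ∀ (G : Type w) [Group G] (m : ℕ) (S : List Q) (R : Q → Fp G (Option Q)), S ≠ [] →
  (∀ q, R q ∈ Sb G (Option Q) {i | ∀ y, i = some y → ∃ c ∈ S, y = c * q}) →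
  (∀ q c, Ext S q c → LF (R q) m (some (c * q))) → ∀ g : G,
  (ofi none g : Fp G (Option Q)) ∈ Subgroup.normalClosure (Set.range fun q => R q ^ m) → g = 1

/-- ST2 (about 200 lines).  As STR, with the explicit list of points.

Proof.  See `Pool/Agent/Helper97/OF/M_STR.lean`.  Hypotheses: hWRD. -/
def StST2 : Prop := ∀ (A : Type u) (B : Type v) (Q : Type x) (G : Type w) [Group A] [Group B]
  [Group Q] [Group G] (πA : A →* Q) (πB : B →* Q)
  (f : πA.ker →* G) (g : πB.ker →* G) (s : Q → A) (s' : Q → B), Sec πA s → Sec πB s' →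
  ∀ (τ : G), τ ≠ 1 → ∀ l : List (A × B), l ≠ [] → Coprod.lift πA πB (wd l) = 1 →
  Gd πA f (l.map Prod.fst) → Gd πB g (l.map Prod.snd) → ∀ q,
    (bl πA πB f g s s' l q).map (fun p => (p.2.1, p.2.2.2)) =
      (pts πA πB l).map (fun p => (p.1 * q, p.2 * q)) ∧
    Wq τ (bl πA πB f g s s' l q) ∈
      Sb G (Option Q) {i | ∀ y, i = some y → ∃ c ∈ pp' (pts πA πB l), y = c * q} ∧
    ∀ c ∈ pp' (pts πA πB l), NC (Wq τ (bl πA πB f g s s' l q)) (some (c * q))

/-- CR2 (about 150 lines).  The core of part 2.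

Proof.  As `Pool/Agent/Helper54/OF/M_COR.lean`, with `G = Coprod (πA.ker × πB.ker) (Multiplicative ℤ)`,
`τ = inr (ofAdd 1) ≠ 1`, `f a = inl (a, 1)`, `g b = inl (1, b)` (injective, so `Gd` holds because the letters
are nontrivial).  `LF (Wq τ (bl .. l q)) m (some (c * q))` for `Ext (pp' (pts ..)) q c`: hCNT, `NC` from hST2,
the condition `∃ δ` because `G` is a free product (`Coprod.lift 1 (zpowersHom T t)`), and `Simple` for the list
of hST2 and `c * q` follows from `Simple (pts ..) c` (right multiplication by `q` is injective: membership and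
`List.count` are unchanged).  hOR2 instead of hORD.  Every `a ≠ 1`: if `πA a ≠ 1` the second coordinate moves,
otherwise `f a ≠ 1`.
Hypotheses: hSEC hACT hST2 hOR2 hCNT. -/
def StCR2 : Prop := ∀ (A : Type u) (B : Type v) (Q : Type x) [Group A] [Group B] [Group Q]
  [LinearOrder Q], (∀ a b c : Q, b < c → a * b < a * c) → ∀ (m : ℕ), 2 ≤ m →
  ∀ (πA : A →* Q) (πB : B →* Q) (l : List (A × B)), l ≠ [] → (∀ p ∈ l, p.1 ≠ 1 ∧ p.2 ≠ 1) →
  Coprod.lift πA πB (wd l) = 1 →
  (∀ q c, Ext (pp' (pts πA πB l)) q c → Simple (pts πA πB l) c) →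
  ∃ (W : Type (max x (max u v))) (_ : Group W) (Φ : Coprod A B →* W), Φ (wd l) ^ m = 1 ∧
    (∀ a, a ≠ 1 → Φ (Coprod.inl a) ≠ 1) ∧ ∀ b, b ≠ 1 → Φ (Coprod.inr b) ≠ 1

end Pool.Agent.Helper37.OF
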